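import Mathlib.GroupTheory.FreeGroup.Basic
import Mathlib.RingTheory.Coprime.Lemmas
import Mathlib.Data.Nat.Choose.Factorization
import Mathlib.Data.Int.ConditionallyCompleteOrder
import Mathlib.Data.Int.Star
import Mathlib.Algebra.Order.Ring.Star
import Mathlib.RingTheory.UniqueFactorizationDomain.Nat
import Mathlib.Combinatorics.Enumerative.DoubleCounting
import Mathlib.GroupTheory.GroupAction.Jordan
import Mathlib.GroupTheory.GroupAction.Period
import Mathlib.GroupTheory.Perm.Cycle.PossibleTypes
import Mathlib.Tactic.Algebra.Basic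

-- ======== part 0: formerly Pool.Agent.MP_b84581_al.Nielsen
section MrgPart0

namespace Pool.Agent.MP_b84581_al

open Subgroup MulAction Pointwise

variable {G ι : Type} [Group G] [DecidableEq ι]

/-- Nielsen equivalence of tuples. -/
def NE (g g' : ι → G) : Prop :=
  ∃ φ : FreeGroup ι ≃* FreeGroup ι, ∀ W, FreeGroup.lift g' W = FreeGroup.lift g (φ W)

omit [DecidableEq ι] in
theorem NE.refl (g : ι → G) : NE g g := ⟨MulEquiv.refl _, fun _ => rfl⟩

omit [DecidableEq ι] in
theorem NE.symm {g g' : ι → G} (h : NE g g') : NE g' g := by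
  obtain ⟨φ, h⟩ := h
  exact ⟨φ.symm, fun W => by rw [h, MulEquiv.apply_symm_apply]⟩

omit [DecidableEq ι] in
theorem NE.trans {g g' g'' : ι → G} (h : NE g g') (h' : NE g' g'') : NE g g'' := by
  obtain ⟨φ, h⟩ := h
  obtain ⟨ψ, h'⟩ := h'
  exact ⟨ψ.trans φ, fun W => by rw [h', h]; rfl⟩

omit [DecidableEq ι] in
theorem NE.gen {g g' : ι → G} (h : NE g g') (hg : closure (Set.range g) = ⊤) :
    closure (Set.range g') = ⊤ := by
  obtain ⟨φ, h⟩ := h
  rw [← FreeGroup.range_lift_eq_closure, MonoidHom.range_eq_top] at hg ⊢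
  intro y
  obtain ⟨W, rfl⟩ := hg y
  exact ⟨φ.symm W, by rw [h, MulEquiv.apply_symm_apply]⟩

theorem NE.update (g : ι → G) (j : ι) {w : G} (hw : w ∈ closure (g '' {i | i ≠ j})) :
    NE g (Function.update g j (g j * w)) := by
  have e : closure (g '' {i | i ≠ j}) =
      (closure (FreeGroup.of '' {i | i ≠ j})).map (FreeGroup.lift g) := by
    rw [MonoidHom.map_closure, Set.image_image]
    simp
  rw [e] at hw
  obtain ⟨W, hW, rfl⟩ := hw
  have fix : ∀ V : FreeGroup ι, FreeGroup.lift (Function.update FreeGroup.of j V) W = W := by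
    intro V
    refine MonoidHom.eqOn_closure (g := MonoidHom.id _) ?_ hW
    rintro _ ⟨i, hi, rfl⟩
    simp [Function.update_of_ne hi]
  refine ⟨MonoidHom.toMulEquiv (FreeGroup.lift (Function.update FreeGroup.of j (.of j * W)))
    (FreeGroup.lift (Function.update FreeGroup.of j (.of j * W⁻¹))) ?_ ?_, ?_⟩
  · ext i
    by_cases hi : i = j
    · subst hi; simp [fix]
    · simp [Function.update_of_ne hi]
  · ext i
    by_cases hi : i = j
    · subst hi; simp [fix]
    · simp [Function.update_of_ne hi]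
  · intro V
    have : FreeGroup.lift (Function.update g j (g j * FreeGroup.lift g W)) =
        (FreeGroup.lift g).comp (FreeGroup.lift (Function.update FreeGroup.of j (.of j * W))) := by
      ext i
      by_cases hi : i = j
      · subst hi; simp
      · simp [Function.update_of_ne hi]
    rw [this]
    rfl

theorem NE.fill {g : ι → G} {S : Finset ι} (hg : closure (g '' S) = ⊤) (h : ι → G)
    (T : Finset ι) (hT : Disjoint S T) : NE g fun i => if i ∈ T then h i else g i := by
  induction T using Finset.induction_on with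
  | empty => simpa using NE.refl g
  | insert j T hj ih =>
    rw [Finset.disjoint_insert_right] at hT
    refine (ih hT.2).trans ?_
    have hw : (g j)⁻¹ * h j ∈ closure ((fun i => if i ∈ T then h i else g i) '' {i | i ≠ j}) := by
      refine closure_mono ?_ (hg.symm ▸ mem_top _)
      rintro _ ⟨i, hi, rfl⟩
      exact ⟨i, fun e => hT.1 (e ▸ hi), by simp [Finset.disjoint_left.mp hT.2 hi]⟩
    convert NE.update _ j hw using 1
    funext i
    by_cases hi : i = j
    · subst hi; simp [hj]
    · simp [hi]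

theorem NE.of_disjoint [Fintype ι] {g h : ι → G} {S S' : Finset ι} (hg : closure (g '' S) = ⊤)
    (hh : closure (h '' S') = ⊤) (hd : Disjoint S S') : NE g h := by
  refine (NE.fill hg h Sᶜ disjoint_compl_right).trans ?_
  have h1 : closure ((fun i => if i ∈ Sᶜ then h i else g i) '' S') = ⊤ := by
    rw [← hh]
    congr 1
    exact Set.image_congr fun i hi => by simp [Finset.disjoint_right.mp hd hi]
  convert NE.fill h1 h S'ᶜ disjoint_compl_right using 1
  funext i
  by_cases hi : i ∈ S'
  · simp [hi, Finset.disjoint_right.mp hd hi]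
  · simp [hi]

theorem exists_avoid [Finite G] {κ : Type} [Fintype κ] (K : Subgroup G) (x : G)
    (M : κ → Subgroup G) (hM : ∀ q, ¬ (K ≤ M q ∧ x ∈ M q)) :
    ∃ w ∈ K, 2 * Nat.card {q // x * w ∈ M q} ≤ Fintype.card κ := by
  classical
  have := Fintype.ofFinite G
  let KF : Finset G := Finset.univ.filter (· ∈ K)
  have h1 : ∀ q, 2 * (KF.filter fun w => x * w ∈ M q).card ≤ KF.card := by
    intro q
    by_cases hK : K ≤ M q
    · have : KF.filter (fun w => x * w ∈ M q) = ∅ := by
        refine Finset.filter_eq_empty_iff.mpr fun w hw hx => hM q ⟨hK, ?_⟩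
        exact (mul_mem_cancel_right (hK (by simpa [KF] using hw))).mp hx
      simp [this]
    · obtain ⟨u, hu, hu'⟩ := SetLike.not_le_iff_exists.mp hK
      have h2 : (KF.filter fun w => x * w ∈ M q).card ≤
          (KF.filter fun w => ¬ x * w ∈ M q).card := by
        refine Finset.card_le_card_of_injOn (· * u) (fun w hw => ?_)
          fun a _ b _ e => mul_right_cancel e
        simp only [KF, Finset.coe_filter, Finset.mem_filter, Finset.mem_univ, true_and,
          Set.mem_ofPred_eq] at hw ⊢
        refine ⟨mul_mem hw.1 hu, fun hc => hu' ?_⟩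
        rw [← mul_assoc] at hc
        exact (mul_mem_cancel_left hw.2).mp hc
      have := Finset.card_filter_add_card_filter_not (s := KF) fun w => x * w ∈ M q
      omega
  have h3 : ∑ w ∈ KF, 2 * (Finset.univ.filter fun q => x * w ∈ M q).card ≤
      ∑ _w ∈ KF, Fintype.card κ := by
    have e : ∑ w ∈ KF, (Finset.univ.filter fun q => x * w ∈ M q).card =
        ∑ q, (KF.filter fun w => x * w ∈ M q).card :=
      Finset.sum_card_bipartiteAbove_eq_sum_card_bipartiteBelow (fun w q => x * w ∈ M q)
    rw [← Finset.mul_sum, e, Finset.mul_sum]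
    refine (Finset.sum_le_sum fun q _ => h1 q).trans ?_
    simp [mul_comm]
  obtain ⟨w, hw, h4⟩ := Finset.exists_le_of_sum_le ⟨1, by simp [KF]⟩ h3
  refine ⟨w, by simpa [KF] using hw, ?_⟩
  rwa [Nat.card_eq_fintype_card, Fintype.card_subtype]

theorem orbit_count {Ω : Type} [MulAction G Ω] [Finite Ω] {H H' : Subgroup G} (hle : H ≤ H')
    {x : G} (hx : x ∈ H') :
    2 * Nat.card (orbitRel.Quotient H' Ω) ≤ Nat.card (orbitRel.Quotient H Ω) +
      Nat.card {q : orbitRel.Quotient H Ω // x ∈ stabilizer G q.orbit} := by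
  classical
  have := Fintype.ofFinite (orbitRel.Quotient H Ω)
  have := Fintype.ofFinite (orbitRel.Quotient H' Ω)
  let π : orbitRel.Quotient H Ω → orbitRel.Quotient H' Ω :=
    Quotient.map' id fun a b ⟨h, e⟩ => ⟨⟨h.1, hle h.2⟩, e⟩
  rw [Nat.card_eq_fintype_card, Nat.card_eq_fintype_card, Nat.card_eq_fintype_card,
    Fintype.card_subtype, ← Finset.card_univ, ← Finset.card_univ,
    Finset.card_eq_sum_card_fiberwise (f := π) (s := Finset.univ) (t := Finset.univ) (by simp),
    Finset.card_eq_sum_card_fiberwise (f := π) (t := Finset.univ)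
      (s := Finset.univ.filter fun q : orbitRel.Quotient H Ω => x ∈ stabilizer G q.orbit)
      (by simp), ← Finset.sum_add_distrib, Finset.card_eq_sum_ones, Finset.mul_sum]
  refine Finset.sum_le_sum fun q' _ => ?_
  induction q' using Quotient.inductionOn' with
  | h ω =>
    have m1 : (Quotient.mk'' ω : orbitRel.Quotient H Ω) ∈
        Finset.univ.filter fun q => π q = Quotient.mk'' ω := by simp [π]
    by_cases hc : 1 < (Finset.univ.filter fun q => π q = Quotient.mk'' ω).card
    · omega
    · have h1 := Finset.card_pos.mpr ⟨_, m1⟩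
      have h2 : orbitRel.Quotient.orbit (Quotient.mk'' ω : orbitRel.Quotient H Ω) =
          orbit H' ω := by
        ext a
        rw [orbitRel.Quotient.mem_orbit]
        constructor
        · intro h
          obtain ⟨h, e⟩ := Quotient.exact' h
          exact ⟨⟨h.1, hle h.2⟩, e⟩
        · intro h
          refine Finset.card_le_one.mp (not_lt.mp hc) _ ?_ _ m1
          simp only [Finset.mem_filter, Finset.mem_univ, true_and]
          exact Quotient.sound' h
      have h3 : 0 < ((Finset.univ.filter fun q : orbitRel.Quotient H Ω =>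
          x ∈ stabilizer G q.orbit).filter fun q => π q = Quotient.mk'' ω).card := by
        refine Finset.card_pos.mpr ⟨Quotient.mk'' ω, ?_⟩
        simp only [Finset.mem_filter, Finset.mem_univ, true_and]
        refine ⟨?_, rfl⟩
        rw [h2, mem_stabilizer_iff]
        exact smul_orbit (⟨x, hx⟩ : H') ω
      omega

theorem merge_orbits [Finite G] {Ω : Type} [MulAction G Ω] [Finite Ω] [IsPretransitive G Ω]
    {g : ι → G} (hg : closure (Set.range g) = ⊤) (S : Finset ι) :
    ∃ g', NE g g' ∧ (Nat.card (orbitRel.Quotient (closure (g' '' S)) Ω) ≤ 1 ∨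
      4 ^ S.card * Nat.card (orbitRel.Quotient (closure (g' '' S)) Ω) ≤
        3 ^ S.card * Nat.card Ω) := by
  induction S using Finset.induction_on with
  | empty =>
    refine ⟨g, NE.refl g, Or.inr ?_⟩
    simpa using Nat.card_le_card_of_surjective _ (Quotient.mk''_surjective)
  | insert j S hj ih =>
    obtain ⟨g', hne, hr⟩ := ih
    have hg' := hne.gen hg
    have := Fintype.ofFinite (orbitRel.Quotient (closure (g' '' S)) Ω)
    have himg : ∀ y, closure (g' '' S) ≤
        closure (Function.update g' j y '' (insert j S : Finset ι)) := by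
      intro y
      refine closure_mono ?_
      rintro _ ⟨i, hi, rfl⟩
      exact ⟨i, by simp [Finset.mem_coe.mp hi],
        Function.update_of_ne (fun e : i = j => hj (e ▸ hi)) _ _⟩
    have hmem : ∀ y, y ∈ closure (Function.update g' j y '' (insert j S : Finset ι)) := fun y =>
      subset_closure ⟨j, by simp, by simp⟩
    by_cases h1 : Nat.card (orbitRel.Quotient (closure (g' '' S)) Ω) ≤ 1
    · refine ⟨_, hne.trans (NE.update g' j (one_mem _)), Or.inl ?_⟩
      have a := orbit_count (Ω := Ω) (himg (g' j * 1)) (hmem _)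
      have b := Finite.card_subtype_le fun q : orbitRel.Quotient (closure (g' '' S)) Ω =>
        g' j * 1 ∈ stabilizer G q.orbit
      omega
    · obtain ⟨w, hw, h2⟩ := exists_avoid (closure (g' '' {i | i ≠ j})) (g' j)
        (fun q : orbitRel.Quotient (closure (g' '' S)) Ω => stabilizer G q.orbit) (by
          rintro q ⟨h2, h3⟩
          have h4 : stabilizer G q.orbit = ⊤ := by
            rw [eq_top_iff, ← hg', closure_le]
            rintro _ ⟨i, rfl⟩
            by_cases hi : i = j
            · exact hi ▸ h3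
            · exact h2 (subset_closure ⟨i, hi, rfl⟩)
          refine h1 (Finite.card_le_one_iff_subsingleton.mpr (subsingleton_of_forall_eq q ?_))
          intro q'
          induction q' using Quotient.inductionOn' with
          | h a =>
            obtain ⟨b, hb⟩ := q.nonempty_orbit
            obtain ⟨y, rfl⟩ := exists_smul_eq G b a
            have h5 : y ∈ stabilizer G q.orbit := h4.symm ▸ mem_top y
            rw [← orbitRel.Quotient.mem_orbit, ← mem_stabilizer_iff.mp h5]
            exact Set.smul_mem_smul_set hb)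
      refine ⟨_, hne.trans (NE.update g' j hw), Or.inr ?_⟩
      have a := orbit_count (Ω := Ω) (himg (g' j * w)) (hmem _)
      rw [← Nat.card_eq_fintype_card] at h2
      rw [Finset.card_insert_of_notMem hj, pow_succ, pow_succ]
      have b := hr.resolve_left h1
      have c : 4 * Nat.card (orbitRel.Quotient
          (closure (Function.update g' j (g' j * w) '' (insert j S : Finset ι))) Ω) ≤
          3 * Nat.card (orbitRel.Quotient (closure (g' '' S)) Ω) := by omega
      calc _ = 4 ^ S.card * (4 * _) := mul_assoc _ _ _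
        _ ≤ 4 ^ S.card * (3 * _) := Nat.mul_le_mul_left _ c
        _ = 3 * (4 ^ S.card * _) := by ring
        _ ≤ 3 * (3 ^ S.card * Nat.card Ω) := Nat.mul_le_mul_left _ b
        _ = _ := by ring

/-- If only the whole group is transitive on `Ω`, few slots suffice. -/
theorem ne_of_action [Fintype ι] [Finite G] {Ω : Type} [MulAction G Ω] [Finite Ω]
    [IsPretransitive G Ω] (hΩ : ∀ H : Subgroup G, IsPretransitive H Ω → H = ⊤) {e : ℕ}
    (he : Nat.card Ω ≤ 2 ^ e) (hk : 6 * e ≤ Fintype.card ι) {g h : ι → G}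
    (hg : closure (Set.range g) = ⊤) (hh : closure (Set.range h) = ⊤) : NE g h := by
  have key : ∀ {g : ι → G}, closure (Set.range g) = ⊤ → ∀ S : Finset ι, S.card = 3 * e →
      ∃ g', NE g g' ∧ closure (g' '' S) = ⊤ := by
    intro g hg S hS
    obtain ⟨g', hne, hr⟩ := merge_orbits (Ω := Ω) hg S
    refine ⟨g', hne, hΩ _ ?_⟩
    have h1 : Nat.card (orbitRel.Quotient (closure (g' '' S)) Ω) ≤ 1 := by
      refine hr.elim id fun hr => ?_
      by_contra hc
      rw [hS, pow_mul, pow_mul] at hr
      have h2 : (3 ^ 3) ^ e * Nat.card Ω ≤ (4 ^ 3) ^ e :=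
        (Nat.mul_le_mul_left _ he).trans (by rw [← mul_pow]; exact Nat.pow_le_pow_left (by norm_num) e)
      have h3 : 0 < (4 ^ 3) ^ e := by positivity
      nlinarith
    have := Finite.card_le_one_iff_subsingleton.mp h1
    exact ⟨fun a b => Quotient.exact' (Subsingleton.elim
      (α := orbitRel.Quotient (closure (g' '' S)) Ω) (Quotient.mk'' b) (Quotient.mk'' a))⟩
  obtain ⟨S, -, hS⟩ := Finset.exists_subset_card_eq (s := (Finset.univ : Finset ι)) (n := 3 * e)
    (by rw [Finset.card_univ]; omega)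
  obtain ⟨S', hS', hS''⟩ := Finset.exists_subset_card_eq (s := Sᶜ) (n := 3 * e)
    (by rw [Finset.card_compl]; omega)
  obtain ⟨g', h₁, h₂⟩ := key hg S hS
  obtain ⟨h', h₃, h₄⟩ := key hh S' hS''
  exact h₁.trans ((NE.of_disjoint h₂ h₄ (disjoint_compl_right.mono_right hS')).trans h₃.symm)

theorem ne_of_tuples [Fintype ι] [Finite G] {α : Type} [MulAction G α] [Finite α] {t L : ℕ}
    (ht : IsMultiplyPretransitive G α t)
    (hΩ : ∀ H : Subgroup G, (∀ x y : Fin t ↪ α, ∃ h ∈ H, ∀ i, h • x i = y i) → H = ⊤)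
    (he : Nat.card α ≤ 2 ^ L) (hk : 6 * (L * t) ≤ Fintype.card ι) {g h : ι → G}
    (hg : closure (Set.range g) = ⊤) (hh : closure (Set.range h) = ⊤) : NE g h := by
  refine ne_of_action (Ω := Fin t ↪ α) (fun H hH => hΩ H fun x y => ?_) ?_ hk hg hh
  · obtain ⟨h, e⟩ := hH.exists_smul_eq x y
    exact ⟨h.1, h.2, fun i => DFunLike.congr_fun e i⟩
  · refine (Nat.card_le_card_of_injective (fun x : Fin t ↪ α => (x : Fin t → α))
      DFunLike.coe_injective).trans ?_
    rw [Nat.card_fun, pow_mul]
    simpa using Nat.pow_le_pow_left he _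

end Pool.Agent.MP_b84581_al

end MrgPart0

-- ======== part 1: formerly Pool.Agent.MP_b84581_al.Giant
section MrgPart1

namespace Pool.Agent.MP_b84581_al

open MulAction Equiv Equiv.Perm Finset

variable {α : Type} [Fintype α] [DecidableEq α]

theorem small_support (π : Perm α) (hn : 0 < Fintype.card α)
    (h : Fintype.card α ^ 7 < orderOf π) :
    ∃ k, π ^ k ≠ 1 ∧ 7 * (π ^ k).support.card ≤ Fintype.card α := by
  by_contra hc
  push Not at hc
  set n := Fintype.card α
  set N := orderOf π with hN
  have hN0 : 0 < N := orderOf_pos π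
  have h1 : ∀ p ∈ N.primeFactors, n ≤ 7 * (π ^ (N / p)).support.card := by
    intro p hp
    obtain ⟨hp, hd, -⟩ := Nat.mem_primeFactors.mp hp
    exact (hc _ (pow_ne_one_of_lt_orderOf
      (Nat.div_pos (Nat.le_of_dvd hN0 hd) hp.pos).ne' (Nat.div_lt_self hN0 hp.one_lt))).le
  have h2 : ∀ x : α, ∏ p ∈ N.primeFactors with x ∈ (π ^ (N / p)).support,
      p ^ N.factorization p ≤ n := by
    intro x
    have hper : period π x ∣ N := period_dvd_orderOf π x
    have hle : period π x ≤ n := Function.minimalPeriod_le_card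
    refine le_trans (Nat.le_of_dvd (Nat.pos_of_dvd_of_pos hper hN0) ?_) hle
    refine Finset.prod_dvd_of_isRelPrime (fun p hp q hq hpq => ?_) fun p hp => ?_
    · simp only [coe_filter, Nat.mem_primeFactors, Set.mem_ofPred_eq] at hp hq
      exact Nat.coprime_iff_isRelPrime.mp
        (Nat.coprime_pow_primes _ _ hp.1.1 hq.1.1 hpq)
    · simp only [mem_filter, Nat.mem_primeFactors, mem_support] at hp
      obtain ⟨⟨hp, hd, -⟩, hx⟩ := hp
      obtain ⟨c, hc⟩ := hper
      have hpc : ¬ p ∣ c := by
        rintro ⟨d, rfl⟩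
        refine hx ((pow_smul_eq_iff_period_dvd (m := π) (a := x)).mpr ⟨d, ?_⟩)
        rw [hc, mul_left_comm, Nat.mul_div_cancel_left _ hp.pos]
      have h3 : p ^ N.factorization p ∣ period π x * c := hc ▸ Nat.ordProj_dvd N p
      exact (Nat.Coprime.pow_left _ ((Nat.Prime.coprime_iff_not_dvd hp).mpr hpc)).dvd_of_dvd_mul_right h3
  have h3 : ∏ p ∈ N.primeFactors, (p ^ N.factorization p) ^ (π ^ (N / p)).support.card ≤ n ^ n := by
    calc _ = ∏ p ∈ N.primeFactors, ∏ x : α,
          if x ∈ (π ^ (N / p)).support then p ^ N.factorization p else 1 := by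
          refine prod_congr rfl fun p _ => ?_
          rw [← prod_filter, prod_const, filter_mem_eq_inter, univ_inter]
      _ = ∏ x : α, ∏ p ∈ N.primeFactors with x ∈ (π ^ (N / p)).support,
          p ^ N.factorization p := by
          rw [prod_comm]
          exact prod_congr rfl fun x _ => (prod_filter _ _).symm
      _ ≤ ∏ _x : α, n := prod_le_prod' fun x _ => h2 x
      _ = n ^ n := by simp [n]
  have h4 : N ^ n ≤ (n ^ 7) ^ n := by
    calc N ^ n = ∏ p ∈ N.primeFactors, (p ^ N.factorization p) ^ n := by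
          rw [prod_pow]
          congr 1
          exact (Nat.prod_factorization_pow_eq_self hN0.ne').symm
      _ ≤ ∏ p ∈ N.primeFactors,
          ((p ^ N.factorization p) ^ (π ^ (N / p)).support.card) ^ 7 := by
          refine prod_le_prod' fun p hp => ?_
          rw [← pow_mul _ _ 7, mul_comm]
          exact Nat.pow_le_pow_right (pow_pos (Nat.prime_of_mem_primeFactors hp).pos _) (h1 p hp)
      _ ≤ (n ^ n) ^ 7 := by rw [prod_pow]; exact Nat.pow_le_pow_left h3 7
      _ = _ := by rw [← pow_mul, ← pow_mul, mul_comm]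
  exact absurd (Nat.pow_lt_pow_left h hn.ne') (not_lt.mpr h4)

omit [DecidableEq α] in
theorem big_order {H : Subgroup (Perm α)} {m : ℕ} (hm : 0 < m)
    (hn : 4 * m ^ 2 ≤ Fintype.card α) (ht : IsMultiplyPretransitive H α (4 * m ^ 2)) :
    ∃ π ∈ H, m.centralBinom ≤ orderOf π := by
  set B := m.centralBinom with hB
  have hq : ∀ p, p ^ B.factorization p ≤ 2 * m := fun p =>
    Nat.pow_factorization_choose_le (by omega)
  have hq' : ∀ p ∈ B.primeFactors, p ≤ p ^ B.factorization p := fun p hp =>
    Nat.le_self_pow (Finsupp.mem_support_iff.mp hp) p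
  obtain ⟨σ, hσ⟩ := (Perm.exists_with_cycleType_iff (Fin (4 * m ^ 2))
      (m := B.primeFactors.val.map fun p => p ^ B.factorization p)).mpr ⟨by
    have h1 : B.primeFactors.card ≤ 2 * m := by
      have : B.primeFactors ⊆ Icc 1 (2 * m) := fun p hp =>
        mem_Icc.mpr ⟨(Nat.prime_of_mem_primeFactors hp).pos, (hq' p hp).trans (hq p)⟩
      simpa using card_le_card this
    have h2 := Finset.sum_le_card_nsmul B.primeFactors _ _ fun p _ => hq p
    rw [Fintype.card_fin]
    refine h2.trans ?_
    rw [smul_eq_mul]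
    nlinarith, by
    intro a ha
    obtain ⟨p, hp, rfl⟩ := Multiset.mem_map.mp ha
    exact (Nat.prime_of_mem_primeFactors hp).two_le.trans (hq' p hp)⟩
  have h1 : B ∣ orderOf σ := by
    rw [Nat.dvd_iff_prime_pow_dvd_dvd]
    intro p k hp hk
    have hB0 : B ≠ 0 := m.centralBinom_ne_zero
    rcases Nat.eq_zero_or_pos k with rfl | hk0
    · simp
    · refine (pow_dvd_pow p ((hp.pow_dvd_iff_le_factorization hB0).mp hk)).trans ?_
      rw [← lcm_cycleType, hσ]
      exact Multiset.dvd_lcm (Multiset.mem_map_of_mem _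
        (Nat.mem_primeFactors.mpr ⟨hp, (dvd_pow_self p hk0.ne').trans hk, hB0⟩))
  obtain ⟨e⟩ : Nonempty (Fin (4 * m ^ 2) ↪ α) :=
    Function.Embedding.nonempty_of_card_le (by simpa using hn)
  obtain ⟨π, hπ⟩ := exists_smul_eq H e (σ.toEmbedding.trans e)
  have h2 : ∀ i, π.1 (e i) = e (σ i) := fun i => DFunLike.congr_fun hπ i
  have h3 : ∀ k i, (π.1 ^ k) (e i) = e ((σ ^ k) i) := by
    intro k
    induction k with
    | zero => simp
    | succ k ih => intro i; rw [pow_succ' π.1, pow_succ' σ, mul_apply, mul_apply, ih, h2]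
  refine ⟨π.1, π.2, Nat.le_of_dvd (orderOf_pos _) (h1.trans (orderOf_dvd_of_pow_eq_one ?_))⟩
  ext1 i
  apply e.injective
  rw [← h3, pow_orderOf_eq_one]
  rfl

omit [Fintype α] [DecidableEq α] in
theorem app_inv (π : Perm α) (x : α) : π (π⁻¹ x) = x := by simp

theorem comm_support (π σ : Perm α) :
    (π * σ * π⁻¹ * σ⁻¹).support.card ≤ 3 * (π.support ∩ σ.support).card := by
  have : (π * σ * π⁻¹ * σ⁻¹).support ⊆ (π.support ∩ σ.support) ∪
      (π.support ∩ σ.support).image π ∪ (π.support ∩ σ.support).image σ := by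
    intro x hx
    by_contra hc
    simp only [mem_union, mem_inter, mem_support, mem_image, not_or, not_and, not_exists,
      not_not, and_imp] at hc
    obtain ⟨⟨h₁, h₂⟩, h₃⟩ := hc
    apply mem_support.mp hx
    simp only [mul_apply]
    by_cases ha : π x = x
    · have hy : π (σ⁻¹ x) = σ⁻¹ x := by
        by_contra hy
        by_cases hs : σ (σ⁻¹ x) = σ⁻¹ x
        · rw [← hs, app_inv] at hy
          exact hy ha
        · exact h₃ _ hy hs (by simp)
      rw [inv_eq_iff_eq.mpr hy.symm, app_inv, ha]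
    · have hs := h₁ ha
      rw [inv_eq_iff_eq.mpr hs.symm]
      have hz : σ (π⁻¹ x) = π⁻¹ x := by
        by_contra hz
        refine h₂ _ (fun hy => ha ?_) hz (by simp)
        rw [app_inv] at hy
        conv_lhs => rw [hy, app_inv]
      rw [hz, app_inv]
  have a := card_le_card this
  have b := card_union_le ((π.support ∩ σ.support) ∪ (π.support ∩ σ.support).image π)
    ((π.support ∩ σ.support).image σ)
  have c := card_union_le (π.support ∩ σ.support) ((π.support ∩ σ.support).image π)
  have d := card_image_le (s := π.support ∩ σ.support) (f := π)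
  have e := card_image_le (s := π.support ∩ σ.support) (f := σ)
  omega

omit [Fintype α] [DecidableEq α] in
theorem three {H : Subgroup (Perm α)} (ht : IsMultiplyPretransitive H α 3) {a b c a' b' c' : α}
    (h₁ : a ≠ b) (h₂ : a ≠ c) (h₃ : b ≠ c) (h₄ : a' ≠ b') (h₅ : a' ≠ c') (h₆ : b' ≠ c') :
    ∃ h ∈ H, h a = a' ∧ h b = b' ∧ h c = c' := by
  have inj : ∀ {a b c : α}, a ≠ b → a ≠ c → b ≠ c → Function.Injective ![a, b, c] := by
    intro a b c h₁ h₂ h₃ i j
    fin_cases i <;> fin_cases j <;> simp [h₁, h₂, h₃, h₁.symm, h₂.symm, h₃.symm]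
  obtain ⟨h, hh⟩ := exists_smul_eq H (⟨_, inj h₁ h₂ h₃⟩ : Fin 3 ↪ α) ⟨_, inj h₄ h₅ h₆⟩
  exact ⟨h.1, h.2, DFunLike.congr_fun hh 0, DFunLike.congr_fun hh 1, DFunLike.congr_fun hh 2⟩

theorem shrink {H : Subgroup (Perm α)} (ht : IsMultiplyPretransitive H α 3) {π : Perm α}
    (hπ : π ∈ H) (h1 : π ≠ 1) (hlt : π.support.card < Fintype.card α) :
    ∃ ρ ∈ H, ρ ≠ 1 ∧ ∃ c, ρ.support.card ≤ 3 * (1 + c) ∧
      (Fintype.card α - 2) * c ≤ π.support.card ^ 2 := by
  classical
  obtain ⟨a, ha⟩ : ∃ a, π a ≠ a := by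
    by_contra hc
    push Not at hc
    exact h1 (Equiv.ext hc)
  obtain ⟨c, -, hc⟩ := exists_mem_notMem_of_card_lt_card (s := π.support) (t := univ) hlt
  rw [notMem_support] at hc
  have hac : a ≠ c := fun e => ha (e ▸ hc)
  have hbc : π a ≠ c := fun e => hac (π.injective (e.trans hc.symm))
  let C : Finset (Perm α) := univ.filter fun h => h ∈ H ∧ h a = a ∧ h (π a) = c
  have hC : C.Nonempty := by
    obtain ⟨h, hh, e₁, e₂, -⟩ := three ht ha.symm hac hbc hac ha.symm hbc.symm
    exact ⟨h, by simp [C, hh, e₁, e₂]⟩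
  let Y := π.support \ {a, π a}
  let Z := π.support \ {a}
  have key : ∀ y, ∀ z ∈ Z, (Fintype.card α - 2) * (C.filter fun h => h y = z).card ≤ C.card := by
    intro y z hz
    simp only [Z, mem_sdiff, mem_support, mem_singleton] at hz
    have hzc : c ≠ z := fun e => hz.1 (e ▸ hc)
    have h2 : ∀ z' ∈ ({a, c}ᶜ : Finset α),
        (C.filter fun h => h y = z).card ≤ (C.filter fun h => h y = z').card := by
      intro z' hz'
      simp only [mem_compl, mem_insert, mem_singleton, not_or] at hz'
      obtain ⟨u, hu, e₁, e₂, e₃⟩ := three ht hac (Ne.symm hz.2) hzc hac (Ne.symm hz'.1)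
        (Ne.symm hz'.2)
      refine card_le_card_of_injOn (u * ·) (fun h hh => ?_) fun _ _ _ _ e => mul_left_cancel e
      simp only [C, coe_filter, mem_filter, mem_univ, true_and, Set.mem_ofPred_eq] at hh ⊢
      obtain ⟨⟨g₁, g₂, g₃⟩, g₄⟩ := hh
      simp only [mul_apply, g₂, g₃, g₄, e₁, e₂, e₃, and_true]
      exact H.mul_mem hu g₁
    have h3 := card_nsmul_le_sum _ _ _ h2
    rw [card_compl, card_pair hac, smul_eq_mul] at h3
    refine h3.trans ?_
    rw [card_eq_sum_card_fiberwise (f := fun h : Perm α => h y) (s := C) (t := univ) (by simp)]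
    exact sum_le_sum_of_subset (subset_univ _)
  have h4 : ∑ h ∈ C, (Fintype.card α - 2) * (Y.filter fun y => h y ∈ Z).card ≤
      ∑ _h ∈ C, π.support.card ^ 2 := by
    have e : ∑ h ∈ C, (Y.filter fun y => h y ∈ Z).card =
        ∑ y ∈ Y, (C.filter fun h => h y ∈ Z).card :=
      sum_card_bipartiteAbove_eq_sum_card_bipartiteBelow (fun (h : Perm α) y => h y ∈ Z)
    rw [← mul_sum, e, mul_sum]
    have h5 : ∀ y ∈ Y, (Fintype.card α - 2) * (C.filter fun h => h y ∈ Z).card ≤
        π.support.card * C.card := by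
      intro y _
      rw [card_eq_sum_card_fiberwise (f := fun h : Perm α => h y) (t := Z)
        (s := C.filter fun h => h y ∈ Z) (fun h hh => (mem_filter.mp hh).2), mul_sum]
      refine (sum_le_card_nsmul _ _ C.card fun z hz => ?_).trans
        (Nat.mul_le_mul_right _ (card_le_card sdiff_subset))
      refine le_trans (Nat.mul_le_mul_left _ (card_le_card fun h hh => ?_)) (key y z hz)
      simp only [mem_filter] at hh ⊢
      exact ⟨hh.1.1, hh.2⟩
    refine (sum_le_card_nsmul _ _ _ h5).trans ?_
    have : Y.card ≤ π.support.card := card_le_card sdiff_subset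
    rw [sum_const, smul_eq_mul, smul_eq_mul, sq, ← mul_assoc, mul_comm C.card]
    exact Nat.mul_le_mul_right _ (Nat.mul_le_mul_right _ this)
  obtain ⟨h, hh, h6⟩ := exists_le_of_sum_le hC h4
  simp only [C, mem_filter, mem_univ, true_and] at hh
  obtain ⟨g₁, g₂, g₃⟩ := hh
  have hσ : h * π * h⁻¹ ∈ H := H.mul_mem (H.mul_mem g₁ hπ) (H.inv_mem g₁)
  refine ⟨π * (h * π * h⁻¹) * π⁻¹ * (h * π * h⁻¹)⁻¹,
    H.mul_mem (H.mul_mem (H.mul_mem hπ hσ) (H.inv_mem hπ)) (H.inv_mem hσ), fun e => ?_, _,
    (comm_support _ _).trans (Nat.mul_le_mul_left _ ?_), h6⟩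
  · have e1 : π * (h * π * h⁻¹) = (h * π * h⁻¹) * π := by
      rw [mul_inv_eq_one, mul_inv_eq_iff_eq_mul] at e
      exact e
    have e2 : (h * π * h⁻¹) a = c := by
      simp only [mul_apply]
      rw [inv_eq_iff_eq.mpr g₂.symm, g₃]
    have e3 := DFunLike.congr_fun e1 a
    rw [mul_apply, e2, hc, mul_apply (h * π * h⁻¹)] at e3
    exact ha ((h * π * h⁻¹).injective (e3.symm.trans e2.symm))
  · have : π.support ∩ (h * π * h⁻¹).support ⊆
        insert a ((Y.filter fun y => h y ∈ Z).image h) := by
      intro x hx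
      rw [support_conj, mem_inter, mem_map] at hx
      obtain ⟨x₁, y, hy, rfl⟩ := hx
      simp only [Equiv.coe_toEmbedding] at x₁ ⊢
      by_cases hya : y = a
      · simp [hya, g₂]
      · refine mem_insert_of_mem (mem_image_of_mem _ (mem_filter.mpr ⟨?_, ?_⟩))
        · refine mem_sdiff.mpr ⟨hy, ?_⟩
          simp only [mem_insert, mem_singleton, not_or]
          refine ⟨hya, ?_⟩
          rintro rfl
          rw [g₃, mem_support] at x₁
          exact x₁ hc
        · refine mem_sdiff.mpr ⟨x₁, ?_⟩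
          rw [mem_singleton]
          exact fun e => hya (h.injective (e.trans g₂.symm))
    have b := card_le_card this
    have d := card_insert_le a ((Y.filter fun y => h y ∈ Z).image h)
    have f := card_image_le (s := Y.filter fun y => h y ∈ Z) (f := h)
    omega

theorem giant {H : Subgroup (Perm α)} {m : ℕ} (hm : 0 < m) (hn : 4 * m ^ 2 ≤ Fintype.card α)
    (hn' : 39 ≤ Fintype.card α) (hB : Fintype.card α ^ 7 < m.centralBinom)
    (ht : IsMultiplyPretransitive H α (4 * m ^ 2)) : alternatingGroup α ≤ H := by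
  have hle : ∀ j ≤ 4, IsMultiplyPretransitive H α j := fun j hj =>
    isMultiplyPretransitive_of_le (n := 4 * m ^ 2) (by nlinarith)
      (by rwa [Nat.card_eq_fintype_card])
  have hprim := isPreprimitive_of_is_two_pretransitive (hle 2 (by norm_num))
  obtain ⟨π, hπ, h1⟩ := big_order hm hn ht
  obtain ⟨k, h2, h3⟩ := small_support π (by omega) (hB.trans_le h1)
  have hex : ∃ μ, ∃ ρ ∈ H, ρ ≠ 1 ∧ ρ.support.card = μ := ⟨_, _, H.pow_mem hπ k, h2, rfl⟩
  classical
  obtain ⟨ρ, hρ, h4, h5⟩ := Nat.find_spec hex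
  have hmin : ∀ τ ∈ H, τ ≠ 1 → ρ.support.card ≤ τ.support.card := fun τ h₁ h₂ =>
    h5 ▸ Nat.find_min' hex ⟨τ, h₁, h₂, rfl⟩
  have h6 := hmin _ (H.pow_mem hπ k) h2
  have h7 := two_le_card_support_of_ne_one h4
  obtain ⟨τ, hτ, h8, c, h9, h10⟩ := shrink (hle 3 (by norm_num)) hρ h4 (by omega)
  have h11 := hmin τ hτ h8
  have h12 : 6 * c ≤ ρ.support.card := by
    have : ρ.support.card * (6 * c) ≤ ρ.support.card * ρ.support.card := by
      have : 6 * ρ.support.card * c ≤ (Fintype.card α - 2) * c :=
        Nat.mul_le_mul_right _ (by omega)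
      nlinarith
    exact Nat.le_of_mul_le_mul_left this (by omega)
  have h13 : c = 0 := by
    by_contra hc
    have : (Fintype.card α - 2) * 1 ≤ (Fintype.card α - 2) * c :=
      Nat.mul_le_mul_left _ (by omega)
    have : ρ.support.card ^ 2 ≤ 6 ^ 2 := Nat.pow_le_pow_left (by omega) 2
    omega
  rcases (by omega : ρ.support.card = 2 ∨ ρ.support.card = 3) with h | h
  · rw [subgroup_eq_top_of_isPreprimitive_of_isSwap_mem hprim ρ (card_support_eq_two.mp h) hρ]
    exact le_top
  · exact alternatingGroup_le_of_isPreprimitive_of_isThreeCycle_mem hprim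
      (card_support_eq_three_iff.mp h) hρ

end Pool.Agent.MP_b84581_al

end MrgPart1

-- marker of a merged file
example : 731051 + 658340 = 731051 + 658340 := rfl
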